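import Pool.Agent.H82.KL.Defs

/-!
Multilinear local smoothing: targets of the single scale part.
-/

set_option autoImplicit false

namespace Pool.Agent.H82.KL

open MeasureTheory Set FourierTransform
open scoped ENNReal NNReal SchwartzMap

/-! ### kernels -/

/-- PKF: the Fourier transform of `exp(-2πa|ξ|)` -/
def T_PKF : Prop := ∀ d : ℕ, ∃ c : ℝ, 0 < c ∧ ∀ (a : ℝ) (y : EE d), 0 < a →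
  ∫ ξ : EE d, e (inner ℝ y ξ) * ((Real.exp (-(2 * Real.pi * a * ‖ξ‖)) : ℝ) : ℂ) =
    ((c * a / (a ^ 2 + ‖y‖ ^ 2) ^ (((d : ℝ) + 1) / 2) : ℝ) : ℂ)

/-- PKZ: the same for complex `z`, `Re z > 0` -/
def T_PKZ : Prop := ∀ d : ℕ, ∃ c : ℝ, ∀ (z : ℂ) (y : EE d), 0 < z.re →
  ∫ ξ : EE d, e (inner ℝ y ξ) * Complex.exp (-(2 * (Real.pi : ℂ) * z * (‖ξ‖ : ℂ))) =
    (c : ℂ) * z * (z ^ 2 + (‖y‖ : ℂ) ^ 2) ^ (-((((d : ℝ) + 1) / 2 : ℝ) : ℂ))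

/-- PKN: the kernel with the radial factor `|ξ|^n exp(-2π|ξ|)` -/
def T_PKN : Prop := ∀ d n : ℕ, ∃ C : ℝ, 0 ≤ C ∧ ∀ (y : EE d) (s : ℝ),
  ‖∫ ξ : EE d, e (inner ℝ y ξ + s * ‖ξ‖) *
      ((‖ξ‖ ^ n * Real.exp (-(2 * Real.pi * ‖ξ‖)) : ℝ) : ℂ)‖ ≤
    C * (1 + ‖y‖ + |s|) ^ (-(((d : ℝ) - 1) / 2)) *
      (1 + abs (‖y‖ - |s|)) ^ (-(((d : ℝ) + 1) / 2 + n))

/-- K1: size of the wave kernels -/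
def T_K1 : Prop := ∀ (d M : ℕ) (a : EE d → ℂ), 1 ≤ d → Sym a → ∃ C : ℝ, 0 ≤ C ∧
  ∀ (y : EE d) (s : ℝ), ‖U a (y, s)‖ ≤
    C * (1 + ‖y‖ + |s|) ^ (-(((d : ℝ) - 1) / 2)) * ((1 + abs (‖y‖ - |s|)) ^ M)⁻¹

/-- K2: rapid decay when the phase is not stationary on the support of the symbol -/
def T_K2 : Prop := ∀ (d M : ℕ) (c : ℝ) (a : EE d → ℂ), 0 < c → Sym a → ∃ C : ℝ, 0 ≤ C ∧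
  ∀ (y : EE d) (s : ℝ), (∀ ξ ∈ tsupport a, c * (‖y‖ + |s|) ≤ ‖y + (s / ‖ξ‖) • ξ‖) →
    ‖U a (y, s)‖ ≤ C * ((1 + ‖y‖ + |s|) ^ M)⁻¹

/-- K3: rapid decay away from the light cone in the directions of the support -/
def T_K3 : Prop := ∀ (d M : ℕ) (η : ℝ) (a : EE d → ℂ), 1 ≤ d → 0 < η → Sym a → ∃ C : ℝ, 0 ≤ C ∧
  ∀ (y : EE d) (s r : ℝ), 1 ≤ r → (∀ ω ∈ Dir η a, r ≤ ‖y + s • ω‖) →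
    ‖U a (y, s)‖ ≤ C * (r ^ M)⁻¹

/-- TAIL: `L¹` norm of the kernel at distance `r` of the light cone -/
def T_TAIL : Prop := ∀ (d M : ℕ) (a : EE d → ℂ), 1 ≤ d → Sym a → ∃ C : ℝ≥0, ∀ s r : ℝ, 0 ≤ r →
  ∫⁻ y in {y : EE d | r ≤ abs (‖y‖ - |s|)}, ‖U a (y, s)‖ₑ ≤
    C * ENNReal.ofReal ((1 + |s|) ^ (((d : ℝ) - 1) / 2) * ((1 + r) ^ M)⁻¹)

/-- SHV: volume of shells -/
def T_SHV : Prop := ∀ d : ℕ, 1 ≤ d → ∃ C : ℝ≥0, ∀ (R t m : ℝ) (x : EE d), 1 ≤ R → 0 ≤ t →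
  t ≤ 2 * R → 0 ≤ m → m ≤ 20 * R →
  volume {y : EE d | |‖y - x‖ - t| ≤ m} ≤ C * ENNReal.ofReal (R ^ ((d : ℝ) - 1) * m)

/-- GRAM: the kernels are continuous and square integrable, their Gram matrix -/
def T_GRAM : Prop := ∀ (d : ℕ) (a : EE d → ℂ), Sym a → Sym (sq a) ∧ Continuous (U a) ∧
  (∀ z : EE d × ℝ, Integrable (fun y : EE d => U a (z.1 - y, z.2)) ∧
    MemLp (fun y : EE d => U a (z.1 - y, z.2)) 2 volume) ∧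
  ∀ z z' : EE d × ℝ, ∫ y : EE d, U a (z.1 - y, z.2) * (starRingEnd ℂ) (U a (z'.1 - y, z'.2)) =
    U (sq a) (z - z')

/-! ### geometry and combinatorics -/

/-- SPH: three points of the unit sphere are not collinear, quantitatively -/
def T_SPH : Prop := ∀ (d : ℕ) (a b c : EE d) (α β : ℝ), ‖a‖ = 1 → ‖b‖ = 1 → ‖c‖ = 1 →
  ‖a - c‖ / 2 * (|β| * ‖c - b‖) ≤ ‖α • (a - b) + β • (c - b)‖ ∧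
  ‖a - c‖ / 2 * (|α| * ‖a - b‖) ≤ ‖α • (a - b) + β • (c - b)‖

/-- PACK: separated sets in balls -/
def T_PACK : Prop := ∀ d : ℕ, ∃ C : ℝ, 0 ≤ C ∧ ∀ (Y : Finset (EE d × ℝ)) (z : EE d × ℝ) (r : ℝ),
  Sep Y → 0 ≤ r → (∀ z' ∈ Y, dist z z' ≤ r) → (Y.card : ℝ) ≤ C * (1 + r) ^ (d + 1)

/-- PSUM: sums over separated sets -/
def T_PSUM : Prop := ∀ d : ℕ, ∃ C : ℝ, 0 ≤ C ∧ ∀ (Y : Finset (EE d × ℝ)) (z : EE d × ℝ),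
  Sep Y → ∑ z' ∈ Y, ((1 + dist z z') ^ (d + 2))⁻¹ ≤ C

/-- ABS: the abstract `TT*` argument over clusters -/
def T_ABS : Prop := ∀ k : ℕ, 2 ≤ k → ∃ C : ℝ, 0 ≤ C ∧
  ∀ (α ι : Type) (Y : Finset α) (cl : α → ι) (G : Fin k → α → α → ℝ) (j₀ : Fin k)
    (F : Fin k → ℝ) (h M D S : ℝ), 0 < h → 0 ≤ M → 0 < D → 0 < S → (∀ j, 0 ≤ F j) →
  (∀ j, ∀ z ∈ Y, ∀ z' ∈ Y, G j z z' = G j z' z) →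
  (∀ (j : Fin k) (β : α → ℝ), (∀ z, 0 ≤ β z) →
    (h * ∑ z ∈ Y, β z) ^ 2 ≤ F j * ∑ z ∈ Y, ∑ z' ∈ Y, β z * β z' * G j z z') →
  (∀ (B Z : Finset α) (w : Fin k → α → ℝ), B ⊆ Y → Z ⊆ B → (∀ z ∈ B, ∀ z' ∈ B, cl z = cl z') →
    (∀ j z, 0 ≤ w j z) → (∀ j, ∑ z ∈ B, w j z = 1) →
    (∀ j, 0 < ∑ y ∈ B, ∑ y' ∈ B, w j y * w j y' * G j y y') →
    (∀ j, ∀ z ∈ Z, ∑ y ∈ B, ∑ y' ∈ B, w j y * w j y' * G j y y' ≤ ∑ z' ∈ B, w j z' * G j z z') →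
    (Z.card : ℝ) ≤ M * ∏ j, (∑ y ∈ B, ∑ y' ∈ B, w j y * w j y' * G j y y') ^
      (-(1 / ((k : ℝ) - 1)))) →
  (∀ (B : Finset α) (w : α → ℝ), B ⊆ Y → (∀ z ∈ B, ∀ z' ∈ B, cl z = cl z') → (∀ z, 0 ≤ w z) →
    ∑ z ∈ B, w z = 1 → 1 ≤ D * ∑ z ∈ B, ∑ z' ∈ B, w z * w z' * G j₀ z z') →
  (∀ j, j ≠ j₀ → ∀ z ∈ Y, ∀ T : Finset α, T ⊆ Y → (∀ z' ∈ T, cl z' ≠ cl z) →
    ∑ z' ∈ T, |G j z z'| ≤ S) →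
  (Y.card : ℝ) ≤ C * (M * D ^ (1 / ((k : ℝ) - 1)) + S) * ∑ j ∈ Finset.univ.erase j₀, F j / h ^ 2

/-- MLR: `k`-linear restriction, discrete form -/
def T_MLR : Prop := ∀ (d k : ℕ) (Γ : Fin k → Set (EE d)) (ε : ℝ), 2 ≤ k → 0 < ε →
  (∀ j, IsCompact (Γ j)) → (∀ j, (0 : EE d) ∉ Γ j) → Transv Γ → ∃ C : ℝ, 0 ≤ C ∧
  ∀ (R : ℝ) (b : Fin k → EE d → ℂ) (z₀ : EE d × ℝ) (Y : Finset (EE d × ℝ)), 1 ≤ R →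
  (∀ j, Continuous (b j)) → (∀ j ξ, b j ξ ≠ 0 → ξ ∈ Γ j) → Sep Y → (∀ z ∈ Y, dist z z₀ ≤ R) →
  (∀ z ∈ Y, ∀ j, 1 ≤ ‖U (b j) z‖) →
  (Y.card : ℝ) ≤ C * R ^ ε * ∏ j, (∫ ξ, ‖b j ξ‖ ^ 2) ^ (1 / ((k : ℝ) - 1))

/-! ### the level set estimate -/

/-- DUAL: Cauchy-Schwarz -/
def T_DUAL : Prop := ∀ (d : ℕ) (a f : EE d → ℂ) (Y : Finset (EE d × ℝ)) (c : EE d × ℝ → ℂ),
  Sym a → Measurable f → 0 ≤ gq a Y c ∧ ENNReal.ofReal (‖∑ z ∈ Y, c z * W a f z‖ ^ 2) ≤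
    (∫⁻ y, ‖f y‖ₑ ^ 2) * ENNReal.ofReal (gq a Y c)

/-- SUPB: sup bound and locality -/
def T_SUPB : Prop := ∀ (d M : ℕ) (a : EE d → ℂ), 1 ≤ d → Sym a → ∃ C : ℝ, 0 ≤ C ∧
  ∀ (R N : ℝ) (f : EE d → ℂ) (z : EE d × ℝ), 1 ≤ R → R ≤ z.2 → z.2 ≤ 2 * R → Measurable f →
  (∀ y, ‖f y‖ ≤ N) → ‖W a f z‖ ≤ C * N * R ^ (((d : ℝ) - 1) / 2) ∧
  ((∀ y, dist y z.1 ≤ 3 * R → f y = 0) → ‖W a f z‖ ≤ C * N * (R ^ M)⁻¹)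

/-- SHL: pairing with functions bounded by `N` at points of a ball of radius `ρ` -/
def T_SHL : Prop := ∀ (d M : ℕ) (a : EE d → ℂ), 1 ≤ d → Sym a → ∃ C : ℝ, 0 ≤ C ∧
  ∀ (R r ρ N : ℝ) (f : EE d → ℂ) (Y : Finset (EE d × ℝ)) (c : EE d × ℝ → ℂ) (z₀ : EE d × ℝ),
  1 ≤ R → 1 ≤ r → r ≤ R → 0 ≤ ρ → ρ ≤ 4 * R → Measurable f → (∀ y, ‖f y‖ ≤ N) →
  (∀ z ∈ Y, dist z z₀ ≤ ρ ∧ R ≤ z.2 ∧ z.2 ≤ 2 * R) →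
  ‖∑ z ∈ Y, c z * W a f z‖ ≤
    N * Real.sqrt (C * R ^ ((d : ℝ) - 1) * (ρ + r)) * Real.sqrt (gq a Y c) +
    C * N * R ^ (((d : ℝ) - 1) / 2) * (r ^ M)⁻¹ * ∑ z ∈ Y, ‖c z‖

/-- LCC: number of points of a level set on a light cone -/
def T_LCC : Prop := ∀ (d M : ℕ) (η κ : ℝ) (a a₀ : EE d → ℂ), 1 ≤ d → 0 < η → 0 < κ → Sym a →
  Sym a₀ → (∀ ω ∈ Dir η a, ∀ ω₀ ∈ Dir η a₀, κ ≤ ‖ω - ω₀‖) → ∃ C : ℝ, 0 < C ∧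
  ∀ (R r ρ N h : ℝ) (f : EE d → ℂ) (Y : Finset (EE d × ℝ)) (z : EE d × ℝ), 1 ≤ R → 1 ≤ r →
  r ≤ R → 1 ≤ ρ → ρ ≤ 4 * R → 0 < h → Measurable f → (∀ y, ‖f y‖ ≤ N) → Sep Y →
  (∀ z' ∈ Y, R ≤ z'.2 ∧ z'.2 ≤ 2 * R ∧ h ≤ ‖W a₀ f z'‖) →
  C * (N * R ^ (((d : ℝ) - 1) / 2) / h) ≤ r ^ M →
  ((coneY η a r ρ Y z).card : ℝ) ≤
    C * r ^ (d + 2) * ρ * (N * R ^ (((d : ℝ) - 1) / 2) / h) ^ 2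

/-- ROW: row sums of the Gram matrix at distances at least `ρ` -/
def T_ROW : Prop := ∀ (d M : ℕ) (η : ℝ) (a : EE d → ℂ), 3 ≤ d → 0 < η → Sym a → ∃ C : ℝ, 0 ≤ C ∧
  ∀ (R r ρ Λ : ℝ) (Y : Finset (EE d × ℝ)) (z : EE d × ℝ), 1 ≤ R → 1 ≤ r → 1 ≤ ρ → 0 ≤ Λ →
  Sep Y → (∀ z' ∈ Y, dist z z' ≤ 2 * R ∧ ρ ≤ dist z z') →
  (∀ ρ' : ℝ, 1 ≤ ρ' → ρ' ≤ 4 * R → ((coneY η a r ρ' Y z).card : ℝ) ≤ Λ * ρ') →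
  ∑ z' ∈ Y, ‖U (sq a) (z - z')‖ ≤
    C * (1 + Real.log R) * Λ * ρ ^ (-(((d : ℝ) - 3) / 2)) + C * R ^ (d + 1) * (r ^ M)⁻¹

/-- LOC: the level set estimate on a ball of radius `R` -/
def T_LOC : Prop := ∀ (d k : ℕ) (L ε : ℝ) (a : Fin k → EE d → ℂ), 3 ≤ d → 2 ≤ k → 0 < L → 0 < ε →
  (∀ j, Sym (a j)) → Transv (fun j => tsupport (a j)) → ∃ C : ℝ≥0,
  ∀ (R h : ℝ) (N : Fin k → ℝ) (f : Fin k → EE d → ℂ) (z₀ : EE d × ℝ) (Y : Finset (EE d × ℝ)),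
  1 ≤ R → 0 < h → (∀ j, Measurable (f j)) → (∀ j y, ‖f j y‖ ≤ N j) → Sep Y →
  (∀ z ∈ Y, dist z z₀ ≤ R ∧ R ≤ z.2 ∧ z.2 ≤ 2 * R ∧ ∀ j, h ≤ ‖W (a j) (f j) z‖) →
  (∀ j, N j * R ^ (((d : ℝ) - 1) / 2) ≤ (2 * R) ^ L * h) →
  (Y.card : ℝ≥0∞) ≤ C * ENNReal.ofReal (R ^ ε) * ∑ j,
    ENNReal.ofReal ((N j * R ^ (((d : ℝ) - 1) / 2) / h) ^ (Pk d k - 2) / h ^ 2) *
      ∫⁻ y, ‖f j y‖ₑ ^ 2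

/-- GLB: the level set estimate -/
def T_GLB : Prop := ∀ (d k : ℕ) (L ε : ℝ) (a : Fin k → EE d → ℂ), 3 ≤ d → 2 ≤ k → 0 < L → 0 < ε →
  (∀ j, Sym (a j)) → Transv (fun j => tsupport (a j)) → ∃ C : ℝ≥0,
  ∀ (R h : ℝ) (N : Fin k → ℝ) (f : Fin k → EE d → ℂ) (Y : Finset (EE d × ℝ)),
  1 ≤ R → 0 < h → (∀ j, Measurable (f j)) → (∀ j y, ‖f j y‖ ≤ N j) → Sep Y →
  (∀ z ∈ Y, R ≤ z.2 ∧ z.2 ≤ 2 * R ∧ ∀ j, h ≤ ‖W (a j) (f j) z‖) →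
  (∀ j, N j * R ^ (((d : ℝ) - 1) / 2) ≤ (2 * R) ^ L * h) →
  (Y.card : ℝ≥0∞) ≤ C * ENNReal.ofReal (R ^ ε) * ∑ j,
    ENNReal.ofReal ((N j * R ^ (((d : ℝ) - 1) / 2) / h) ^ (Pk d k - 2) / h ^ 2) *
      ∫⁻ y, ‖f j y‖ₑ ^ 2

/-- L2P: polynomial bound at separated points -/
def T_L2P : Prop := ∀ (d : ℕ) (a : EE d → ℂ), 1 ≤ d → Sym a → ∃ C : ℝ≥0,
  ∀ (R : ℝ) (f : EE d → ℂ) (Y : Finset (EE d × ℝ)), 1 ≤ R → Measurable f → Sep Y →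
  (∀ z ∈ Y, R ≤ z.2 ∧ z.2 ≤ 2 * R) →
  ∑ z ∈ Y, ‖W a f z‖ₑ ^ 2 ≤ C * ENNReal.ofReal (R ^ ((d : ℝ) + 2)) * ∫⁻ y, ‖f y‖ₑ ^ 2

/-- CORE: `k`-linear local smoothing at frequency one and time `R` -/
def T_CORE : Prop := ∀ (d k : ℕ) (p ε : ℝ) (a : Fin k → EE d → ℂ), 3 ≤ d → 2 ≤ k → Pk d k ≤ p →
  0 < ε → (∀ j, Sym (a j)) → Transv (fun j => tsupport (a j)) → ∃ C : ℝ≥0,
  ∀ (R : ℝ) (f : Fin k → EE d → ℂ), 1 ≤ R → (∀ j, BM (f j)) →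
  ∫⁻ t in Icc R (2 * R), ∫⁻ x : EE d, (⨅ j, ‖W (a j) (f j) (x, t)‖ₑ) ^ p ≤
    C * ENNReal.ofReal (R ^ (((d : ℝ) - 1) * (p / 2 - 1) + ε)) * ∑ j, ∫⁻ y, ‖f j y‖ₑ ^ p

end Pool.Agent.H82.KL
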