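import Pool.Agent.H82.KL.Targets

set_option autoImplicit false

namespace Pool.Agent.H82.KL

open Finset

variable {α : Type}

/-- quadratic form -/
private noncomputable def qf (B : Finset α) (G : α → α → ℝ) (w w' : α → ℝ) : ℝ :=
  ∑ y ∈ B, ∑ y' ∈ B, w y * w' y' * G y y'

/-- minimiser over the capped simplex -/
lemma cap_min [DecidableEq α] (B : Finset α) (hB : B.Nonempty) (c : ℝ) (hc : 1 ≤ c * B.card)
    (G : α → α → ℝ) : ∃ w : α → ℝ, (∀ z, 0 ≤ w z) ∧ (∀ z, w z ≤ c) ∧ (∀ z, z ∉ B → w z = 0) ∧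
      ∑ z ∈ B, w z = 1 ∧ ∀ w' : α → ℝ, (∀ z, 0 ≤ w' z) → (∀ z, w' z ≤ c) →
        ∑ z ∈ B, w' z = 1 → qf B G w w ≤ qf B G w' w' := by
  have hcard : (0 : ℝ) < B.card := by exact_mod_cast hB.card_pos
  have hc0 : 0 < c := by
    by_contra h
    push Not at h
    nlinarith
  let K : Set (B → ℝ) := {w | (∀ z, 0 ≤ w z) ∧ (∀ z, w z ≤ c) ∧ ∑ z, w z = 1}
  have hK1 : K = Set.Icc (fun _ => (0 : ℝ)) (fun _ => c) ∩ {w | ∑ z, w z = 1} := by
    ext w
    simp only [K, Set.mem_ofPred_eq, Set.mem_inter_iff, Set.mem_Icc, Pi.le_def, and_assoc]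
  have hK : IsCompact K := by
    rw [hK1]
    refine isCompact_Icc.inter_right ?_
    exact isClosed_eq (by fun_prop) continuous_const
  have hne : K.Nonempty := by
    refine ⟨fun _ => (B.card : ℝ)⁻¹, fun _ => by positivity, fun _ => ?_, ?_⟩
    · rw [inv_le_iff_one_le_mul₀ hcard]
      linarith
    · rw [Finset.sum_const, Finset.card_univ, Fintype.card_coe, nsmul_eq_mul]
      exact mul_inv_cancel₀ hcard.ne'
  have hcont : Continuous (fun w : B → ℝ => ∑ y, ∑ y', w y * w y' * G y y') := by fun_prop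
  obtain ⟨w, hwK, hwmin⟩ := hK.exists_isMinOn hne hcont.continuousOn
  have hwmin' : ∀ w' ∈ K, ∑ y, ∑ y', w y * w y' * G y y' ≤ ∑ y, ∑ y', w' y * w' y' * G y y' :=
    fun w' hw' => hwmin hw'
  refine ⟨fun z => if hz : z ∈ B then w ⟨z, hz⟩ else 0, ?_, ?_, ?_, ?_, ?_⟩
  · intro z
    dsimp only
    split_ifs with hz
    · exact hwK.1 _
    · exact le_rfl
  · intro z
    dsimp only
    split_ifs with hz
    · exact hwK.2.1 _
    · exact hc0.le
  · intro z hz
    simp [hz]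
  · rw [← Finset.sum_coe_sort B]
    have := hwK.2.2
    simpa using this
  · intro w' h1 h2 h3
    have h4 : (fun z : B => w' z) ∈ K := ⟨fun z => h1 z, fun z => h2 z, by
      rw [← h3, ← Finset.sum_coe_sort B]⟩
    have h5 := hwmin' _ h4
    have h6 : ∀ v : α → ℝ, qf B G v v = ∑ y : B, ∑ y' : B, v y * v y' * G y y' := by
      intro v
      unfold qf
      rw [← Finset.sum_coe_sort B]
      refine Finset.sum_congr rfl fun y _ => ?_
      rw [← Finset.sum_coe_sort B]
    rw [h6, h6]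
    simpa using h5

/-- first order condition -/
lemma first_order (B : Finset α) (c : ℝ) (G : α → α → ℝ) (hG : ∀ z ∈ B, ∀ z' ∈ B, G z z' = G z' z)
    (w : α → ℝ) (hw0 : ∀ z, 0 ≤ w z) (hwc : ∀ z, w z ≤ c) (hw1 : ∑ z ∈ B, w z = 1)
    (hmin : ∀ w' : α → ℝ, (∀ z, 0 ≤ w' z) → (∀ z, w' z ≤ c) →
        ∑ z ∈ B, w' z = 1 → qf B G w w ≤ qf B G w' w')
    (w' : α → ℝ) (h0 : ∀ z, 0 ≤ w' z) (hc : ∀ z, w' z ≤ c) (h1 : ∑ z ∈ B, w' z = 1) :
    qf B G w w ≤ qf B G w' w := by
  by_contra hlt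
  push Not at hlt
  have hsym : qf B G w w' = qf B G w' w := by
    unfold qf
    rw [Finset.sum_comm]
    refine Finset.sum_congr rfl fun y hy => Finset.sum_congr rfl fun y' hy' => ?_
    rw [hG y' hy' y hy]
    ring
  set q := qf B G w w
  set b := qf B G w' w
  set q' := qf B G w' w'
  have key : ∀ t : ℝ, 0 < t → t ≤ 1 → 0 ≤ 2 * (b - q) + t * (q + q' - 2 * b) := by
    intro t ht ht1
    have h2 := hmin (fun z => (1 - t) * w z + t * w' z)
      (fun z => by
        have := hw0 z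
        have := h0 z
        have : 0 ≤ 1 - t := by linarith
        positivity)
      (fun z => by nlinarith [hwc z, hc z])
      (by rw [Finset.sum_add_distrib, ← Finset.mul_sum, ← Finset.mul_sum, hw1, h1]; ring)
    have h3 : qf B G (fun z => (1 - t) * w z + t * w' z) (fun z => (1 - t) * w z + t * w' z) =
        (1 - t) ^ 2 * q + (1 - t) * t * b + (1 - t) * t * b + t ^ 2 * q' := by
      have e1 : (1 - t) * t * b = (1 - t) * t * qf B G w w' := by rw [hsym]
      rw [show (1 - t) ^ 2 * q + (1 - t) * t * b + (1 - t) * t * b + t ^ 2 * q' =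
        (1 - t) ^ 2 * q + (1 - t) * t * qf B G w w' + (1 - t) * t * qf B G w' w + t ^ 2 * q' by
        rw [← e1]]
      simp only [q, q', qf]
      simp only [Finset.mul_sum, ← Finset.sum_add_distrib]
      refine Finset.sum_congr rfl fun y _ => Finset.sum_congr rfl fun y' _ => ?_
      ring
    rw [h3] at h2
    have h4 : 0 ≤ t * (2 * (b - q) + t * (q + q' - 2 * b)) := by nlinarith
    exact nonneg_of_mul_nonneg_right h4 ht
  set X := q + q' - 2 * b
  have hX : 0 < |X| + 1 := by positivity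
  have hb : 0 < q - b := by linarith
  have ht0 : 0 < min 1 ((q - b) / (|X| + 1)) := lt_min one_pos (div_pos hb hX)
  have h5 := key _ ht0 (min_le_left _ _)
  have h6 : min 1 ((q - b) / (|X| + 1)) * X ≤ (q - b) := by
    calc min 1 ((q - b) / (|X| + 1)) * X ≤ min 1 ((q - b) / (|X| + 1)) * |X| :=
          mul_le_mul_of_nonneg_left (le_abs_self _) ht0.le
      _ ≤ (q - b) / (|X| + 1) * (|X| + 1) := by
          apply mul_le_mul (min_le_right _ _) (by linarith) (abs_nonneg _) (by positivity)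
      _ = q - b := div_mul_cancel₀ _ hX.ne'
  linarith

/-- few bad points -/
lemma few_bad [DecidableEq α] (B : Finset α) (hB : B.Nonempty) (K : ℝ) (hK : 0 < K)
    (G : α → α → ℝ) (hG : ∀ z ∈ B, ∀ z' ∈ B, G z z' = G z' z)
    (w : α → ℝ) (hw0 : ∀ z, 0 ≤ w z) (hwc : ∀ z, w z ≤ K / B.card) (hw1 : ∑ z ∈ B, w z = 1)
    (hmin : ∀ w' : α → ℝ, (∀ z, 0 ≤ w' z) → (∀ z, w' z ≤ K / B.card) →
        ∑ z ∈ B, w' z = 1 → qf B G w w ≤ qf B G w' w') :
    ((B.filter (fun z => ∑ z' ∈ B, w z' * G z z' < qf B G w w)).card : ℝ) * K < B.card := by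
  have hcard : (0 : ℝ) < B.card := by exact_mod_cast hB.card_pos
  set T := B.filter (fun z => ∑ z' ∈ B, w z' * G z z' < qf B G w w) with hT
  by_contra hlt
  push Not at hlt
  have hTc : (0 : ℝ) < T.card := by
    by_contra h
    push Not at h
    nlinarith
  have hTne : T.Nonempty := by
    rw [← Finset.card_pos]
    exact_mod_cast hTc
  have h1 := first_order B (K / B.card) G hG w hw0 hwc hw1 hmin
    (fun z => if z ∈ T then (T.card : ℝ)⁻¹ else 0)
    (fun z => by split_ifs <;> positivity)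
    (fun z => by
      split_ifs
      · rw [inv_le_comm₀ hTc (by positivity), inv_div, div_le_iff₀ hK]
        exact hlt
      · positivity)
    (by
      rw [← Finset.sum_filter, Finset.filter_mem_eq_inter,
        Finset.inter_eq_right.mpr (Finset.filter_subset _ _), Finset.sum_const, nsmul_eq_mul]
      exact mul_inv_cancel₀ hTc.ne')
  have h2 : qf B G (fun z => if z ∈ T then (T.card : ℝ)⁻¹ else 0) w =
      ∑ z ∈ T, (T.card : ℝ)⁻¹ * ∑ z' ∈ B, w z' * G z z' := by
    unfold qf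
    rw [← Finset.sum_subset (Finset.filter_subset _ _ : T ⊆ B)]
    · refine Finset.sum_congr rfl fun z hz => ?_
      rw [Finset.mul_sum]
      refine Finset.sum_congr rfl fun z' _ => ?_
      dsimp only
      rw [if_pos hz]
      ring
    · intro z _ hz
      have hz' : z ∉ T := hz
      refine Finset.sum_eq_zero fun z' _ => ?_
      dsimp only
      rw [if_neg hz']
      ring
  have h3 : ∑ z ∈ T, (T.card : ℝ)⁻¹ * ∑ z' ∈ B, w z' * G z z' <
      ∑ z ∈ T, (T.card : ℝ)⁻¹ * qf B G w w := by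
    refine Finset.sum_lt_sum_of_nonempty hTne fun z hz => ?_
    exact mul_lt_mul_of_pos_left (Finset.mem_filter.mp hz).2 (by positivity)
  rw [Finset.sum_const, nsmul_eq_mul, ← mul_assoc, mul_inv_cancel₀ hTc.ne', one_mul] at h3
  linarith

/-- the `TT*` inequality for a family of clusters -/
lemma tt_clusters {ι : Type} [DecidableEq α] [DecidableEq ι] (Y : Finset α) (cl : α → ι)
    (G : α → α → ℝ) (F h S Q T : ℝ) (hF : 0 ≤ F) (hS : 0 ≤ S) (hT : 0 ≤ T)
    (hQ : 0 ≤ Q)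
    (Hf : ∀ β : α → ℝ, (∀ z, 0 ≤ β z) →
      (h * ∑ z ∈ Y, β z) ^ 2 ≤ F * ∑ z ∈ Y, ∑ z' ∈ Y, β z * β z' * G z z')
    (H3 : ∀ z ∈ Y, ∀ T : Finset α, T ⊆ Y → (∀ z' ∈ T, cl z' ≠ cl z) → ∑ z' ∈ T, |G z z'| ≤ S)
    (J : Finset ι) (b : ι → ℝ) (w : ι → α → ℝ) (hb : ∀ i ∈ J, 0 ≤ b i) (hw : ∀ i ∈ J, ∀ z, 0 ≤ w i z)
    (hw1 : ∀ i ∈ J, ∑ z ∈ Y.filter (fun z => cl z = i), w i z = 1)
    (hbq : ∀ i ∈ J, b i * qf (Y.filter (fun z => cl z = i)) G (w i) (w i) ≤ Q)
    (hbT : ∀ i ∈ J, ∀ z, b i * w i z ≤ T) :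
    h ^ 2 * ∑ i ∈ J, b i ≤ F * (Q + T * S) := by
  set β : α → ℝ := fun z => if cl z ∈ J then b (cl z) * w (cl z) z else 0 with hβ
  have hβ0 : ∀ z, 0 ≤ β z := by
    intro z
    simp only [hβ]
    split_ifs with hz
    · exact mul_nonneg (hb _ hz) (hw _ hz _)
    · exact le_rfl
  have hβT : ∀ z, β z ≤ T := by
    intro z
    simp only [hβ]
    split_ifs with hz
    · exact hbT _ hz _
    · exact hT
  have hfib : ∀ f : α → ℝ, (∀ z ∈ Y, cl z ∉ J → f z = 0) →
      ∑ z ∈ Y, f z = ∑ i ∈ J, ∑ z ∈ Y.filter (fun z => cl z = i), f z := by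
    intro f hf
    have h1 : ∑ z ∈ Y, f z = ∑ z ∈ Y.filter (fun z => cl z ∈ J), f z := by
      rw [Finset.sum_filter]
      refine Finset.sum_congr rfl fun z hz => ?_
      split_ifs with hz'
      · rfl
      · exact hf z hz hz'
    rw [h1, ← Finset.sum_fiberwise_of_maps_to (s := Y.filter (fun z => cl z ∈ J)) (t := J) (g := cl)
      (fun z hz => (Finset.mem_filter.mp hz).2)]
    refine Finset.sum_congr rfl fun i hi => ?_
    refine Finset.sum_congr ?_ fun _ _ => rfl
    ext z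
    simp only [Finset.mem_filter]
    constructor
    · rintro ⟨⟨h2, _⟩, h4⟩
      exact ⟨h2, h4⟩
    · rintro ⟨h2, h4⟩
      exact ⟨⟨h2, by rw [h4]; exact hi⟩, h4⟩
  have hsum : ∑ z ∈ Y, β z = ∑ i ∈ J, b i := by
    rw [hfib β (fun z _ hz => by simp [hβ, hz])]
    refine Finset.sum_congr rfl fun i hi => ?_
    rw [← mul_one (b i), ← hw1 i hi, Finset.mul_sum]
    refine Finset.sum_congr rfl fun z hz => ?_
    have : cl z = i := (Finset.mem_filter.mp hz).2
    simp only [hβ, this, if_pos hi]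
  have hin : ∀ z ∈ Y, ∑ z' ∈ Y, β z * β z' * G z z' =
      ∑ z' ∈ Y.filter (fun z' => cl z' = cl z), β z * β z' * G z z' +
      ∑ z' ∈ Y.filter (fun z' => ¬ cl z' = cl z), β z * β z' * G z z' := by
    intro z _
    rw [Finset.sum_filter_add_sum_filter_not]
  have hdiag : ∑ z ∈ Y, ∑ z' ∈ Y.filter (fun z' => cl z' = cl z), β z * β z' * G z z' ≤
      Q * ∑ i ∈ J, b i := by
    rw [hfib (fun z => ∑ z' ∈ Y.filter (fun z' => cl z' = cl z), β z * β z' * G z z')
      (fun z _ hz => by simp [hβ, hz]), Finset.mul_sum]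
    refine Finset.sum_le_sum fun i hi => ?_
    have h1 : ∑ z ∈ Y.filter (fun z => cl z = i),
        ∑ z' ∈ Y.filter (fun z' => cl z' = cl z), β z * β z' * G z z' =
        b i * (b i * qf (Y.filter (fun z => cl z = i)) G (w i) (w i)) := by
      unfold qf
      rw [Finset.mul_sum, Finset.mul_sum]
      refine Finset.sum_congr rfl fun z hz => ?_
      have h2 : cl z = i := (Finset.mem_filter.mp hz).2
      rw [h2, Finset.mul_sum, Finset.mul_sum]
      refine Finset.sum_congr rfl fun z' hz' => ?_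
      have h3 : cl z' = i := (Finset.mem_filter.mp hz').2
      simp only [hβ, h2, h3, if_pos hi]
      ring
    rw [h1, mul_comm Q]
    exact mul_le_mul_of_nonneg_left (hbq i hi) (hb i hi)
  have hoff : ∑ z ∈ Y, ∑ z' ∈ Y.filter (fun z' => ¬ cl z' = cl z), β z * β z' * G z z' ≤
      T * S * ∑ i ∈ J, b i := by
    rw [← hsum, Finset.mul_sum]
    refine Finset.sum_le_sum fun z hz => ?_
    calc ∑ z' ∈ Y.filter (fun z' => ¬ cl z' = cl z), β z * β z' * G z z'
        ≤ ∑ z' ∈ Y.filter (fun z' => ¬ cl z' = cl z), β z * (T * |G z z'|) := by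
          refine Finset.sum_le_sum fun z' _ => ?_
          rw [mul_assoc]
          refine mul_le_mul_of_nonneg_left ?_ (hβ0 z)
          calc β z' * G z z' ≤ β z' * |G z z'| :=
                mul_le_mul_of_nonneg_left (le_abs_self _) (hβ0 z')
            _ ≤ T * |G z z'| := mul_le_mul_of_nonneg_right (hβT z') (abs_nonneg _)
      _ = β z * (T * ∑ z' ∈ Y.filter (fun z' => ¬ cl z' = cl z), |G z z'|) := by
          rw [Finset.mul_sum, Finset.mul_sum]
      _ ≤ β z * (T * S) := by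
          refine mul_le_mul_of_nonneg_left (mul_le_mul_of_nonneg_left ?_ hT) (hβ0 z)
          exact H3 z hz _ (Finset.filter_subset _ _) (fun z' hz' => (Finset.mem_filter.mp hz').2)
      _ = T * S * β z := by ring
  have hb0 : 0 ≤ ∑ i ∈ J, b i := Finset.sum_nonneg hb
  have hmain := Hf β hβ0
  rw [hsum, Finset.sum_congr rfl hin, Finset.sum_add_distrib] at hmain
  have h4 : (h * ∑ i ∈ J, b i) ^ 2 ≤ F * ((Q + T * S) * ∑ i ∈ J, b i) := by
    refine hmain.trans (mul_le_mul_of_nonneg_left ?_ hF)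
    rw [add_mul]
    exact add_le_add hdiag hoff
  rcases hb0.eq_or_lt with h5 | h5
  · rw [← h5]
    have : 0 ≤ F * (Q + T * S) := by positivity
    simpa using this
  · have h6 : (h ^ 2 * ∑ i ∈ J, b i) * ∑ i ∈ J, b i ≤ (F * (Q + T * S)) * ∑ i ∈ J, b i := by
      nlinarith
    exact le_of_mul_le_mul_right h6 h5

/-- arithmetic and geometric means -/
lemma am_gm {k : ℕ} (hk : 2 ≤ k) (j₀ : Fin k) (x : Fin k → ℝ) (hx : ∀ j, 0 < x j) :
    ∏ j ∈ Finset.univ.erase j₀, x j ^ (1 / ((k : ℝ) - 1)) ≤ ∑ j ∈ Finset.univ.erase j₀, x j := by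
  have hk1 : (0 : ℝ) < (k : ℝ) - 1 := by
    have : (2 : ℝ) ≤ k := by exact_mod_cast hk
    linarith
  have hcard : ((Finset.univ.erase j₀).card : ℝ) = (k : ℝ) - 1 := by
    rw [Finset.card_erase_of_mem (Finset.mem_univ _), Finset.card_univ, Fintype.card_fin,
      Nat.cast_sub (by omega)]
    simp
  have h2 := Real.geom_mean_le_arith_mean_weighted (Finset.univ.erase j₀)
    (fun _ => 1 / ((k : ℝ) - 1)) x (fun _ _ => by positivity)
    (by rw [Finset.sum_const, nsmul_eq_mul, hcard]; field_simp) (fun j _ => (hx j).le)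
  refine h2.trans (Finset.sum_le_sum fun j _ => ?_)
  have h3 : 1 / ((k : ℝ) - 1) ≤ 1 := by
    rw [div_le_one hk1]
    have : (2 : ℝ) ≤ k := by exact_mod_cast hk
    linarith
  nlinarith [hx j]

/-- all about one cluster -/
lemma cluster [DecidableEq α] {k : ℕ} (hk : 2 ≤ k) (Y : Finset α)
    (G : Fin k → α → α → ℝ) (j₀ : Fin k)
    (F : Fin k → ℝ) (h M D : ℝ) (hh : 0 < h) (hM : 0 ≤ M) (hD : 0 < D) (hF : ∀ j, 0 ≤ F j)
    (hG : ∀ j, ∀ z ∈ Y, ∀ z' ∈ Y, G j z z' = G j z' z)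
    (Hf : ∀ (j : Fin k) (β : α → ℝ), (∀ z, 0 ≤ β z) →
      (h * ∑ z ∈ Y, β z) ^ 2 ≤ F j * ∑ z ∈ Y, ∑ z' ∈ Y, β z * β z' * G j z z')
    (B : Finset α) (hBY : B ⊆ Y) (hB : B.Nonempty)
    (H1 : ∀ (Z : Finset α) (w : Fin k → α → ℝ), Z ⊆ B →
      (∀ j z, 0 ≤ w j z) → (∀ j, ∑ z ∈ B, w j z = 1) →
      (∀ j, 0 < ∑ y ∈ B, ∑ y' ∈ B, w j y * w j y' * G j y y') →
      (∀ j, ∀ z ∈ Z, ∑ y ∈ B, ∑ y' ∈ B, w j y * w j y' * G j y y' ≤ ∑ z' ∈ B, w j z' * G j z z') →
      (Z.card : ℝ) ≤ M * ∏ j, (∑ y ∈ B, ∑ y' ∈ B, w j y * w j y' * G j y y') ^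
        (-(1 / ((k : ℝ) - 1))))
    (H2 : ∀ w : α → ℝ, (∀ z, 0 ≤ w z) →
      ∑ z ∈ B, w z = 1 → 1 ≤ D * ∑ z ∈ B, ∑ z' ∈ B, w z * w z' * G j₀ z z') :
    ∃ w : Fin k → α → ℝ, (∀ j z, 0 ≤ w j z) ∧ (∀ j z, w j z ≤ 2 * k / B.card) ∧
      (∀ j, ∑ z ∈ B, w j z = 1) ∧ (∀ j, 0 < qf B (G j) (w j) (w j)) ∧
      (B.card : ℝ) ≤ 2 * (M * D ^ (1 / ((k : ℝ) - 1))) *
        ∑ j ∈ Finset.univ.erase j₀, 1 / qf B (G j) (w j) (w j) := by
  have hk0 : (0 : ℝ) < k := by
    have : (2 : ℝ) ≤ k := by exact_mod_cast hk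
    linarith
  have hk1 : (0 : ℝ) < (k : ℝ) - 1 := by
    have : (2 : ℝ) ≤ k := by exact_mod_cast hk
    linarith
  have hcard : (0 : ℝ) < B.card := by exact_mod_cast hB.card_pos
  have hc1 : (1 : ℝ) ≤ 2 * k / B.card * B.card := by
    rw [div_mul_cancel₀ _ hcard.ne']
    have : (2 : ℝ) ≤ k := by exact_mod_cast hk
    linarith
  choose w hw0 hwc hwz hw1 hmin using fun j => cap_min B hB (2 * k / B.card) hc1 (G j)
  have hq : ∀ j, 0 < qf B (G j) (w j) (w j) := by
    intro j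
    have h1 := Hf j (w j) (hw0 j)
    have h2 : ∑ z ∈ Y, w j z = 1 := by
      rw [← hw1 j]
      exact (Finset.sum_subset hBY fun z _ hz => hwz j z hz).symm
    have h3 : ∑ z ∈ Y, ∑ z' ∈ Y, w j z * w j z' * G j z z' = qf B (G j) (w j) (w j) := by
      unfold qf
      rw [← Finset.sum_subset hBY fun z _ hz => ?_]
      · refine Finset.sum_congr rfl fun z _ => ?_
        exact (Finset.sum_subset hBY fun z' _ hz' => by rw [hwz j z' hz']; ring).symm
      · refine Finset.sum_eq_zero fun z' _ => ?_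
        rw [hwz j z hz]
        ring
    rw [h2, h3, mul_one] at h1
    have h4 : 0 < F j * qf B (G j) (w j) (w j) := lt_of_lt_of_le (by positivity) h1
    exact pos_of_mul_pos_right h4 (hF j)
  refine ⟨w, hw0, hwc, hw1, hq, ?_⟩
  set Z := B.filter (fun z => ∀ j, qf B (G j) (w j) (w j) ≤ ∑ z' ∈ B, w j z' * G j z z') with hZ
  have hbad : ((B \ Z).card : ℝ) ≤ ∑ j : Fin k,
      ((B.filter (fun z => ∑ z' ∈ B, w j z' * G j z z' < qf B (G j) (w j) (w j))).card : ℝ) := by
    have h1 : B \ Z ⊆ Finset.univ.biUnion (fun j : Fin k =>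
        B.filter (fun z => ∑ z' ∈ B, w j z' * G j z z' < qf B (G j) (w j) (w j))) := by
      intro z hz
      rw [Finset.mem_sdiff] at hz
      simp only [Finset.mem_biUnion, Finset.mem_filter, Finset.mem_univ, true_and]
      have h2 : ¬ ∀ j, qf B (G j) (w j) (w j) ≤ ∑ z' ∈ B, w j z' * G j z z' := by
        intro h3
        exact hz.2 (Finset.mem_filter.mpr ⟨hz.1, h3⟩)
      push Not at h2
      obtain ⟨j, hj⟩ := h2
      exact ⟨j, hz.1, hj⟩
    have h2 := (Finset.card_le_card h1).trans Finset.card_biUnion_le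
    exact_mod_cast h2
  have hfew : ∀ j : Fin k,
      ((B.filter (fun z => ∑ z' ∈ B, w j z' * G j z z' < qf B (G j) (w j) (w j))).card : ℝ) ≤
        B.card / (2 * k) := by
    intro j
    rw [le_div_iff₀ (by positivity)]
    exact (few_bad B hB (2 * k) (by positivity) (G j)
      (fun z hz z' hz' => hG j z (hBY hz) z' (hBY hz')) (w j) (hw0 j) (hwc j) (hw1 j)
      (hmin j)).le
  have hhalf : (B.card : ℝ) ≤ 2 * Z.card := by
    have h1 : ((B \ Z).card : ℝ) ≤ B.card / 2 := by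
      calc ((B \ Z).card : ℝ) ≤ ∑ _j : Fin k, (B.card : ℝ) / (2 * k) :=
            hbad.trans (Finset.sum_le_sum fun j _ => hfew j)
        _ = B.card / 2 := by
            rw [Finset.sum_const, Finset.card_univ, Fintype.card_fin, nsmul_eq_mul]
            field_simp
    have h2 : ((B \ Z).card : ℝ) + Z.card = B.card := by
      have := Finset.card_sdiff_add_card_eq_card (Finset.filter_subset _ _ : Z ⊆ B)
      exact_mod_cast this
    linarith
  have h1 := H1 Z w (Finset.filter_subset _ _) hw0 hw1 hq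
    (fun j z hz => (Finset.mem_filter.mp hz).2 j)
  have h2 : ∏ j, (∑ y ∈ B, ∑ y' ∈ B, w j y * w j y' * G j y y') ^ (-(1 / ((k : ℝ) - 1))) ≤
      D ^ (1 / ((k : ℝ) - 1)) * ∑ j ∈ Finset.univ.erase j₀, 1 / qf B (G j) (w j) (w j) := by
    have h3 : ∀ j, (∑ y ∈ B, ∑ y' ∈ B, w j y * w j y' * G j y y') ^ (-(1 / ((k : ℝ) - 1))) =
        (1 / qf B (G j) (w j) (w j)) ^ (1 / ((k : ℝ) - 1)) := by
      intro j
      change (qf B (G j) (w j) (w j)) ^ (-(1 / ((k : ℝ) - 1))) = _
      rw [Real.rpow_neg (hq j).le, one_div (qf B (G j) (w j) (w j)),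
        Real.inv_rpow (hq j).le]
    rw [Finset.prod_congr rfl fun j _ => h3 j, ← Finset.mul_prod_erase _ _ (Finset.mem_univ j₀)]
    refine mul_le_mul ?_ (am_gm hk j₀ _ fun j => by have := hq j; positivity)
      (Finset.prod_nonneg fun j _ => by have := hq j; positivity) (by positivity)
    refine Real.rpow_le_rpow (by have := hq j₀; positivity) ?_ (by positivity)
    rw [div_le_iff₀ (hq j₀)]
    exact H2 (w j₀) (hw0 j₀) (hw1 j₀)
  calc (B.card : ℝ) ≤ 2 * Z.card := hhalf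
    _ ≤ 2 * (M * (D ^ (1 / ((k : ℝ) - 1)) *
        ∑ j ∈ Finset.univ.erase j₀, 1 / qf B (G j) (w j) (w j))) := by
        have := mul_le_mul_of_nonneg_left h2 hM
        linarith
    _ = _ := by ring

theorem abs_main : T_ABS := by
  intro k hk
  refine ⟨2 * (1 + 2 * k), by positivity, ?_⟩
  intro α ι Y cl G j₀ F h M D S hh hM hD hS hF hG Hf H1 H2 H3
  classical
  have hk0 : (0 : ℝ) < k := by
    have : (2 : ℝ) ≤ k := by exact_mod_cast hk
    linarith
  set I := Y.image cl with hI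
  have hne : ∀ i ∈ I, (Y.filter (fun z => cl z = i)).Nonempty := by
    intro i hi
    obtain ⟨z, hz, rfl⟩ := Finset.mem_image.mp hi
    exact ⟨z, Finset.mem_filter.mpr ⟨hz, rfl⟩⟩
  have hex : ∀ i : ι, ∃ w : Fin k → α → ℝ, i ∈ I →
      (∀ j z, 0 ≤ w j z) ∧ (∀ j z, w j z ≤ 2 * k / (Y.filter (fun z => cl z = i)).card) ∧
      (∀ j, ∑ z ∈ Y.filter (fun z => cl z = i), w j z = 1) ∧
      (∀ j, 0 < qf (Y.filter (fun z => cl z = i)) (G j) (w j) (w j)) ∧
      ((Y.filter (fun z => cl z = i)).card : ℝ) ≤ 2 * (M * D ^ (1 / ((k : ℝ) - 1))) *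
        ∑ j ∈ Finset.univ.erase j₀, 1 / qf (Y.filter (fun z => cl z = i)) (G j) (w j) (w j) := by
    intro i
    by_cases hi : i ∈ I
    · have hcl : ∀ z ∈ Y.filter (fun z => cl z = i), ∀ z' ∈ Y.filter (fun z => cl z = i),
          cl z = cl z' := by
        intro z hz z' hz'
        rw [(Finset.mem_filter.mp hz).2, (Finset.mem_filter.mp hz').2]
      obtain ⟨w, hw⟩ := cluster hk Y G j₀ F h M D hh hM hD hF hG Hf
        (Y.filter (fun z => cl z = i)) (Finset.filter_subset _ _) (hne i hi)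
        (fun Z w hZ h1 h2 h3 h4 => H1 _ Z w (Finset.filter_subset _ _) hZ hcl h1 h2 h3 h4)
        (fun w h1 h2 => H2 _ w (Finset.filter_subset _ _) hcl h1 h2)
      exact ⟨w, fun _ => hw⟩
    · exact ⟨fun _ _ => 0, fun h => absurd h hi⟩
  choose w hw using hex
  set n : ι → ℝ := fun i => ((Y.filter (fun z => cl z = i)).card : ℝ) with hn
  set q : ι → Fin k → ℝ := fun i j => qf (Y.filter (fun z => cl z = i)) (G j) (w i j) (w i j)
    with hq
  have hn0 : ∀ i ∈ I, 0 < n i := by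
    intro i hi
    simp only [hn]
    exact_mod_cast (hne i hi).card_pos
  have hq0 : ∀ i ∈ I, ∀ j, 0 < q i j := fun i hi j => (hw i hi).2.2.2.1 j
  have hcard : (Y.card : ℝ) = ∑ i ∈ I, n i := by
    have := Finset.card_eq_sum_card_fiberwise (f := cl) (s := Y) (t := I)
      (fun z hz => Finset.mem_image_of_mem _ hz)
    simp only [hn]
    exact_mod_cast this
  set good := I.filter (fun i => ∀ j, j ≠ j₀ → S ≤ n i * q i j) with hgood
  have hsplit : ∑ i ∈ I, n i ≤ ∑ i ∈ good, n i +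
      ∑ j ∈ Finset.univ.erase j₀, ∑ i ∈ I.filter (fun i => n i * q i j < S), n i := by
    have h1 : ∑ i ∈ I, n i = ∑ i ∈ good, n i +
        ∑ i ∈ I.filter (fun i => ¬ ∀ j, j ≠ j₀ → S ≤ n i * q i j), n i :=
      (Finset.sum_filter_add_sum_filter_not _ _ _).symm
    rw [h1]
    refine add_le_add le_rfl ?_
    simp only [Finset.sum_filter]
    rw [Finset.sum_comm]
    refine Finset.sum_le_sum fun i _ => ?_
    have hnn : 0 ≤ n i := Nat.cast_nonneg _
    split_ifs with hi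
    · refine Finset.sum_nonneg fun j _ => ?_
      split_ifs
      · exact hnn
      · exact le_rfl
    · push Not at hi
      obtain ⟨j, hj1, hj2⟩ := hi
      refine le_trans ?_ (Finset.single_le_sum (f := fun j => if n i * q i j < S then n i else 0)
        (fun j _ => ?_) (Finset.mem_erase.mpr ⟨hj1, Finset.mem_univ j⟩))
      · simp only [if_pos hj2]
        exact le_rfl
      · split_ifs
        · exact hnn
        · exact le_rfl
  have hG1 : ∀ j ∈ Finset.univ.erase j₀, ∑ i ∈ good, 1 / q i j ≤ (1 + 2 * k) * (F j / h ^ 2) := by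
    intro j hj
    have hj0 : j ≠ j₀ := (Finset.mem_erase.mp hj).1
    have h1 := tt_clusters Y cl (G j) (F j) h S 1 (2 * k / S) (hF j) hS.le (by positivity)
      zero_le_one (Hf j) (H3 j hj0) good (fun i => 1 / q i j) (fun i => w i j)
      (fun i hi => by
        have := hq0 i (Finset.mem_filter.mp hi).1 j
        positivity)
      (fun i hi => (hw i (Finset.mem_filter.mp hi).1).1 j)
      (fun i hi => (hw i (Finset.mem_filter.mp hi).1).2.2.1 j)
      (fun i hi => by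
        have := hq0 i (Finset.mem_filter.mp hi).1 j
        change 1 / q i j * q i j ≤ 1
        rw [one_div, inv_mul_cancel₀ this.ne'])
      (fun i hi z => by
        have h2 := hq0 i (Finset.mem_filter.mp hi).1 j
        have h3 := hn0 i (Finset.mem_filter.mp hi).1
        have h4 := (hw i (Finset.mem_filter.mp hi).1).2.1 j z
        have h5 := (Finset.mem_filter.mp hi).2 j hj0
        calc 1 / q i j * w i j z ≤ 1 / q i j * (2 * k / n i) :=
              mul_le_mul_of_nonneg_left h4 (by positivity)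
          _ = 2 * k / (n i * q i j) := by field_simp
          _ ≤ 2 * k / S := div_le_div_of_nonneg_left (by positivity) hS h5)
    have h2 : F j * (1 + 2 * k / S * S) = (1 + 2 * k) * F j := by
      rw [div_mul_cancel₀ _ hS.ne']
      ring
    rw [h2] at h1
    rw [← mul_div_assoc, le_div_iff₀ (by positivity)]
    linarith
  have hG2 : ∀ j ∈ Finset.univ.erase j₀, ∑ i ∈ I.filter (fun i => n i * q i j < S), n i ≤
      (1 + 2 * k) * S * (F j / h ^ 2) := by
    intro j hj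
    have hj0 : j ≠ j₀ := (Finset.mem_erase.mp hj).1
    have h1 := tt_clusters Y cl (G j) (F j) h S S (2 * k) (hF j) hS.le (by positivity)
      hS.le (Hf j) (H3 j hj0) (I.filter (fun i => n i * q i j < S)) n (fun i => w i j)
      (fun i hi => (hn0 i (Finset.mem_filter.mp hi).1).le)
      (fun i hi => (hw i (Finset.mem_filter.mp hi).1).1 j)
      (fun i hi => (hw i (Finset.mem_filter.mp hi).1).2.2.1 j)
      (fun i hi => (Finset.mem_filter.mp hi).2.le)
      (fun i hi z => by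
        have h3 := hn0 i (Finset.mem_filter.mp hi).1
        have h4 := (hw i (Finset.mem_filter.mp hi).1).2.1 j z
        calc n i * w i j z ≤ n i * (2 * k / n i) := mul_le_mul_of_nonneg_left h4 h3.le
          _ = 2 * k := by field_simp)
    rw [← mul_div_assoc, le_div_iff₀ (by positivity)]
    linarith
  have hA : 0 ≤ M * D ^ (1 / ((k : ℝ) - 1)) := by positivity
  set A := M * D ^ (1 / ((k : ℝ) - 1)) with hAdef
  have hgoodsum : ∑ i ∈ good, n i ≤ 2 * A * ∑ j ∈ Finset.univ.erase j₀,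
      (1 + 2 * k) * (F j / h ^ 2) := by
    calc ∑ i ∈ good, n i ≤ ∑ i ∈ good, 2 * A * ∑ j ∈ Finset.univ.erase j₀, 1 / q i j :=
          Finset.sum_le_sum fun i hi => (hw i (Finset.mem_filter.mp hi).1).2.2.2.2
      _ = 2 * A * ∑ j ∈ Finset.univ.erase j₀, ∑ i ∈ good, 1 / q i j := by
          rw [← Finset.mul_sum, Finset.sum_comm]
      _ ≤ _ := mul_le_mul_of_nonneg_left (Finset.sum_le_sum hG1) (by positivity)
  have hbadsum : ∑ j ∈ Finset.univ.erase j₀, ∑ i ∈ I.filter (fun i => n i * q i j < S), n i ≤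
      ∑ j ∈ Finset.univ.erase j₀, (1 + 2 * k) * S * (F j / h ^ 2) := Finset.sum_le_sum hG2
  have hX : 0 ≤ ∑ j ∈ Finset.univ.erase j₀, F j / h ^ 2 :=
    Finset.sum_nonneg fun j _ => by have := hF j; positivity
  rw [hcard]
  rw [← Finset.mul_sum] at hgoodsum
  rw [← Finset.mul_sum] at hbadsum
  set X := ∑ j ∈ Finset.univ.erase j₀, F j / h ^ 2
  have hSX : 0 ≤ S * X := by positivity
  have hkSX : 0 ≤ (k : ℝ) * (S * X) := by positivity
  calc ∑ i ∈ I, n i ≤ 2 * A * ((1 + 2 * k) * X) + (1 + 2 * k) * S * X :=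
        hsplit.trans (add_le_add hgoodsum hbadsum)
    _ ≤ 2 * (1 + 2 * k) * (A + S) * X := by nlinarith

end Pool.Agent.H82.KL
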