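import Pool.Agent.H82.KL.Targets3

/-!
SHL: pairing with functions bounded by `N` at points of a ball of radius `ρ`.
-/

set_option autoImplicit false

namespace Pool.Agent.H82.KL.SHL2

open Pool.Agent.H82.KL MeasureTheory Set FourierTransform
open scoped ENNReal NNReal SchwartzMap

private theorem cont_e : Continuous e := by
  unfold e
  fun_prop

private theorem norm_e (x : ℝ) : ‖e x‖ = 1 := by
  unfold e
  rw [Complex.norm_exp_ofReal_mul_I]

private theorem contU {d : ℕ} {a : EE d → ℂ} (hs : Sym a) : Continuous (U a) := by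
  have hac : Continuous a := hs.1.continuous
  have hai : Integrable a := hac.integrable_of_hasCompactSupport hs.2.1
  unfold U
  refine continuous_of_dominated (bound := fun ξ => ‖a ξ‖) ?_ ?_ hai.norm ?_
  · intro z
    have hc : Continuous (fun ξ : EE d => e (inner ℝ z.1 ξ + z.2 * ‖ξ‖) * a ξ) :=
      (cont_e.comp (by fun_prop)).mul hac
    exact hc.aestronglyMeasurable
  · intro z
    filter_upwards with ξ
    rw [norm_mul, norm_e, one_mul]
  · filter_upwards with ξ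
    exact (cont_e.comp (by fun_prop)).mul continuous_const

private theorem int1 {d : ℕ} {a : EE d → ℂ} (h2 : T_TAIL) (hd : 1 ≤ d) (hs : Sym a) (s : ℝ) :
    Integrable (fun y : EE d => U a (y, s)) := by
  obtain ⟨C, hC⟩ := h2 d 0 a hd hs
  refine ⟨((contU hs).comp (by fun_prop)).aestronglyMeasurable, ?_⟩
  have h := hC s 0 le_rfl
  have hset : {y : EE d | (0 : ℝ) ≤ abs (‖y‖ - |s|)} = univ := by
    ext y; simp
  rw [hset, Measure.restrict_univ] at h
  exact h.trans_lt (ENNReal.mul_lt_top ENNReal.coe_lt_top ENNReal.ofReal_lt_top)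

private theorem intK {d : ℕ} {a : EE d → ℂ} (h2 : T_TAIL) (hd : 1 ≤ d) (hs : Sym a)
    (z : EE d × ℝ) : Integrable (fun y : EE d => U a (z.1 - y, z.2)) :=
  (int1 h2 hd hs z.2).comp_sub_left z.1

private theorem intKf {d : ℕ} {a : EE d → ℂ} (h2 : T_TAIL) (hd : 1 ≤ d) (hs : Sym a)
    (z : EE d × ℝ) (f : EE d → ℂ) (hf : Measurable f) (N : ℝ) (hN : ∀ y, ‖f y‖ ≤ N) :
    Integrable (fun y : EE d => U a (z.1 - y, z.2) * f y) := by
  have := (intK h2 hd hs z).mul_bdd (c := N) hf.aestronglyMeasurable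
    (Filter.Eventually.of_forall hN)
  exact this

theorem shl_main (h1 : T_DUAL2) (h2 : T_TAIL) (h3 : T_SHV) : T_SHL := by
  classical
  intro d M a hd hs
  obtain ⟨C1, hC1⟩ := h2 d M a hd hs
  obtain ⟨C2, hC2⟩ := h3 d hd
  set e1 : ℝ := ((d : ℝ) - 1) / 2 with he1
  have he1' : 0 ≤ e1 := by
    have : (1 : ℝ) ≤ d := by exact_mod_cast hd
    rw [he1]; linarith
  set C : ℝ := 4 * (C2 : ℝ) + (C1 : ℝ) * 3 ^ e1 with hCdef
  have hC1n : (0 : ℝ) ≤ C1 := C1.2
  have hC2n : (0 : ℝ) ≤ C2 := C2.2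
  have h3e : (0 : ℝ) ≤ (3 : ℝ) ^ e1 := Real.rpow_nonneg (by norm_num) _
  have hC0 : 0 ≤ C := by rw [hCdef]; positivity
  refine ⟨C, hC0, ?_⟩
  intro R r ρ N f Y c z₀ hR hr hrR hρ hρR hf hN hY
  have hN0 : 0 ≤ N := (norm_nonneg _).trans (hN 0)
  have hR0 : 0 < R := by linarith
  have hr0 : 0 < r := by linarith
  rcases Y.eq_empty_or_nonempty with hYe | ⟨z1, hz1⟩
  · subst hYe
    simp only [Finset.sum_empty, norm_zero]
    positivity
  set S : Set (EE d) := {y | |‖y - z1.1‖ - z1.2| ≤ 4 * ρ + r} with hS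
  have hSm : MeasurableSet S := by
    apply measurableSet_le
    · fun_prop
    · fun_prop
  have hvol : volume S ≤ (C2 : ℝ≥0∞) * ENNReal.ofReal (R ^ ((d : ℝ) - 1) * (4 * ρ + r)) := by
    have h := (hY z1 hz1).2
    exact hC2 R z1.2 (4 * ρ + r) z1.1 hR (by linarith) h.2 (by linarith) (by linarith)
  set f1 : EE d → ℂ := S.indicator f with hf1
  set f2 : EE d → ℂ := Sᶜ.indicator f with hf2
  have hf1m : Measurable f1 := hf.indicator hSm
  have hf2m : Measurable f2 := hf.indicator hSm.compl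
  have hf12 : ∀ y, f y = f1 y + f2 y := by
    intro y
    exact (congrFun (Set.indicator_self_add_compl S f) y).symm
  have hf1N : ∀ y, ‖f1 y‖ ≤ N := fun y => (norm_indicator_le_norm_self f y).trans (hN y)
  have hf2N : ∀ y, ‖f2 y‖ ≤ N := fun y => (norm_indicator_le_norm_self f y).trans (hN y)
  have hW : ∀ z : EE d × ℝ, W a f z = W a f1 z + W a f2 z := by
    intro z
    unfold W
    rw [← integral_add (intKf h2 hd hs z f1 hf1m N hf1N) (intKf h2 hd hs z f2 hf2m N hf2N)]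
    refine integral_congr_ae (Filter.Eventually.of_forall fun y => ?_)
    simp only
    rw [hf12 y, mul_add]
  -- the far part
  have hfar : ∀ z ∈ Y, ‖W a f2 z‖ ≤ C * N * R ^ e1 * (r ^ M)⁻¹ := by
    intro z hz
    obtain ⟨hzd, hzR, hz2R⟩ := hY z hz
    have hd1 : dist z z1 ≤ 2 * ρ := by
      have := dist_triangle_right z z1 z₀
      have h1' := (hY z1 hz1).1
      linarith
    have hda : ‖z.1 - z1.1‖ ≤ 2 * ρ := by
      rw [← dist_eq_norm]
      exact (le_max_left _ _).trans hd1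
    have hdb : |z.2 - z1.2| ≤ 2 * ρ := by
      rw [← Real.dist_eq]
      exact (le_max_right _ _).trans hd1
    have hz2 : |z.2| = z.2 := abs_of_nonneg (by linarith)
    have hsub : ∀ y, y ∉ S → r ≤ abs (‖z.1 - y‖ - |z.2|) := by
      intro y hy
      rw [hS, mem_setOf_eq, not_le] at hy
      rw [hz2]
      have t1 : |‖y - z1.1‖ - ‖z.1 - y‖| ≤ ‖z.1 - z1.1‖ := by
        have : y - z1.1 = (z.1 - z1.1) - (z.1 - y) := by abel
        rw [this]
        have h := abs_norm_sub_norm_le ((z.1 - z1.1) - (z.1 - y)) (-(z.1 - y))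
        rw [norm_neg] at h
        refine h.trans (le_of_eq ?_)
        congr 1
        abel
      have t2 : |‖y - z1.1‖ - z1.2| ≤ |‖z.1 - y‖ - z.2| + |‖y - z1.1‖ - ‖z.1 - y‖| +
          |z.2 - z1.2| := by
        have : ‖y - z1.1‖ - z1.2 = (‖z.1 - y‖ - z.2) + (‖y - z1.1‖ - ‖z.1 - y‖) +
          (z.2 - z1.2) := by ring
        rw [this]
        exact abs_add_three _ _ _
      linarith
    have hbound : ‖W a f2 z‖ₑ ≤ ENNReal.ofReal N *
        ∫⁻ y in {y : EE d | r ≤ abs (‖y‖ - |z.2|)}, ‖U a (y, z.2)‖ₑ := by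
      have hms : MeasurableSet {y : EE d | r ≤ abs (‖y‖ - |z.2|)} := by
        apply measurableSet_le
        · fun_prop
        · fun_prop
      calc ‖W a f2 z‖ₑ ≤ ∫⁻ y, ‖U a (z.1 - y, z.2) * f2 y‖ₑ := enorm_integral_le_lintegral_enorm _
        _ ≤ ∫⁻ y, ENNReal.ofReal N * ({y : EE d | r ≤ abs (‖y‖ - |z.2|)}.indicator
              (fun y => ‖U a (y, z.2)‖ₑ)) (z.1 - y) := by
            refine lintegral_mono fun y => ?_
            by_cases hy : y ∈ S
            · have : f2 y = 0 := by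
                rw [hf2, Set.indicator_of_notMem (by simpa using hy)]
              rw [this, mul_zero, enorm_zero]
              exact zero_le
            · have hy' : (z.1 - y) ∈ {y : EE d | r ≤ abs (‖y‖ - |z.2|)} := hsub y hy
              rw [Set.indicator_of_mem hy', enorm_mul, mul_comm]
              gcongr
              rw [← ofReal_norm_eq_enorm]
              exact ENNReal.ofReal_le_ofReal (hf2N y)
        _ = ENNReal.ofReal N * ∫⁻ y, ({y : EE d | r ≤ abs (‖y‖ - |z.2|)}.indicator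
              (fun y => ‖U a (y, z.2)‖ₑ)) (z.1 - y) := by
            rw [lintegral_const_mul']
            exact ENNReal.ofReal_ne_top
        _ = ENNReal.ofReal N * ∫⁻ y, ({y : EE d | r ≤ abs (‖y‖ - |z.2|)}.indicator
              (fun y => ‖U a (y, z.2)‖ₑ)) y := by
            rw [lintegral_sub_left_eq_self
              (fun y => ({y : EE d | r ≤ abs (‖y‖ - |z.2|)}.indicator
                (fun y => ‖U a (y, z.2)‖ₑ)) y) z.1]
        _ = _ := by rw [lintegral_indicator hms]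
    have hb2 : ‖W a f2 z‖ₑ ≤ ENNReal.ofReal (N * ((C1 : ℝ) *
        ((1 + |z.2|) ^ e1 * ((1 + r) ^ M)⁻¹))) := by
      refine hbound.trans ?_
      rw [ENNReal.ofReal_mul hN0, ENNReal.ofReal_mul hC1n]
      gcongr
      have := hC1 z.2 r (by linarith)
      rwa [ENNReal.ofReal_coe_nnreal]
    rw [← ofReal_norm_eq_enorm] at hb2
    have hnn : 0 ≤ N * ((C1 : ℝ) * ((1 + |z.2|) ^ e1 * ((1 + r) ^ M)⁻¹)) := by positivity
    have hb3 := (ENNReal.ofReal_le_ofReal_iff hnn).1 hb2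
    refine hb3.trans ?_
    have k1 : (1 + |z.2|) ^ e1 ≤ 3 ^ e1 * R ^ e1 := by
      rw [← Real.mul_rpow (by norm_num) hR0.le]
      apply Real.rpow_le_rpow (by positivity) _ he1'
      rw [hz2]; linarith
    have k2 : ((1 + r) ^ M)⁻¹ ≤ (r ^ M)⁻¹ := by
      apply inv_anti₀ (by positivity)
      exact pow_le_pow_left₀ hr0.le (by linarith) M
    have k3 : (C1 : ℝ) * 3 ^ e1 ≤ C := by rw [hCdef]; linarith
    calc N * ((C1 : ℝ) * ((1 + |z.2|) ^ e1 * ((1 + r) ^ M)⁻¹))
        ≤ N * ((C1 : ℝ) * ((3 ^ e1 * R ^ e1) * (r ^ M)⁻¹)) := by gcongr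
      _ = ((C1 : ℝ) * 3 ^ e1) * (N * R ^ e1 * (r ^ M)⁻¹) := by ring
      _ ≤ C * (N * R ^ e1 * (r ^ M)⁻¹) := by gcongr
      _ = _ := by ring
  -- the near part
  have hdual := h1 d a f1 Y c hs hf1m (Or.inl ⟨N, hf1N⟩)
  have hL2 : ∫⁻ y, ‖f1 y‖ₑ ^ 2 ≤ ENNReal.ofReal (N ^ 2 * (C * R ^ ((d : ℝ) - 1) * (ρ + r))) := by
    have hRn : 0 ≤ R ^ ((d : ℝ) - 1) := Real.rpow_nonneg hR0.le _
    calc ∫⁻ y, ‖f1 y‖ₑ ^ 2 ≤ ∫⁻ y, S.indicator (fun _ => ENNReal.ofReal (N ^ 2)) y := by
          refine lintegral_mono fun y => ?_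
          by_cases hy : y ∈ S
          · rw [hf1, Set.indicator_of_mem hy, Set.indicator_of_mem hy, ← ofReal_norm_eq_enorm,
              ← ENNReal.ofReal_pow (norm_nonneg _)]
            exact ENNReal.ofReal_le_ofReal (pow_le_pow_left₀ (norm_nonneg _) (hN y) 2)
          · rw [hf1, Set.indicator_of_notMem hy, Set.indicator_of_notMem hy]
            simp
      _ = ENNReal.ofReal (N ^ 2) * volume S := by
          rw [lintegral_indicator hSm, setLIntegral_const]
      _ ≤ ENNReal.ofReal (N ^ 2) * ((C2 : ℝ≥0∞) *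
            ENNReal.ofReal (R ^ ((d : ℝ) - 1) * (4 * ρ + r))) := by gcongr
      _ = ENNReal.ofReal (N ^ 2 * ((C2 : ℝ) * (R ^ ((d : ℝ) - 1) * (4 * ρ + r)))) := by
          rw [ENNReal.ofReal_mul (sq_nonneg N), ENNReal.ofReal_mul hC2n, ENNReal.ofReal_coe_nnreal]
      _ ≤ _ := by
          apply ENNReal.ofReal_le_ofReal
          have k0 : 0 ≤ (C1 : ℝ) * 3 ^ e1 := by positivity
          have k1 : (C2 : ℝ) * (R ^ ((d : ℝ) - 1) * (4 * ρ + r)) ≤
              C * R ^ ((d : ℝ) - 1) * (ρ + r) := by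
            calc (C2 : ℝ) * (R ^ ((d : ℝ) - 1) * (4 * ρ + r))
                ≤ (C2 : ℝ) * (R ^ ((d : ℝ) - 1) * (4 * (ρ + r))) := by
                  gcongr; linarith
              _ = (4 * (C2 : ℝ)) * (R ^ ((d : ℝ) - 1) * (ρ + r)) := by ring
              _ ≤ C * (R ^ ((d : ℝ) - 1) * (ρ + r)) := by
                  apply mul_le_mul_of_nonneg_right _ (by positivity)
                  rw [hCdef]; linarith
              _ = _ := by ring
          exact mul_le_mul_of_nonneg_left k1 (sq_nonneg N)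
  have hnear : ‖∑ z ∈ Y, c z * W a f1 z‖ ≤
      N * Real.sqrt (C * R ^ ((d : ℝ) - 1) * (ρ + r)) * Real.sqrt (gq a Y c) := by
    have hRn : 0 ≤ R ^ ((d : ℝ) - 1) := Real.rpow_nonneg hR0.le _
    have q1 : ENNReal.ofReal (‖∑ z ∈ Y, c z * W a f1 z‖ ^ 2) ≤
        ENNReal.ofReal ((N ^ 2 * (C * R ^ ((d : ℝ) - 1) * (ρ + r))) * gq a Y c) := by
      rw [ENNReal.ofReal_mul (by positivity)]
      exact hdual.2.trans (by gcongr)
    have hnn : 0 ≤ (N ^ 2 * (C * R ^ ((d : ℝ) - 1) * (ρ + r))) * gq a Y c :=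
      mul_nonneg (by positivity) hdual.1
    have q2 := (ENNReal.ofReal_le_ofReal_iff hnn).1 q1
    refine (sq_le_sq₀ (norm_nonneg _) (by positivity)).1 ?_
    rw [mul_pow, mul_pow, Real.sq_sqrt (by positivity), Real.sq_sqrt hdual.1]
    exact q2
  calc ‖∑ z ∈ Y, c z * W a f z‖
      = ‖(∑ z ∈ Y, c z * W a f1 z) + ∑ z ∈ Y, c z * W a f2 z‖ := by
        rw [← Finset.sum_add_distrib]
        congr 1
        refine Finset.sum_congr rfl fun z _ => ?_
        rw [hW z, mul_add]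
    _ ≤ ‖∑ z ∈ Y, c z * W a f1 z‖ + ‖∑ z ∈ Y, c z * W a f2 z‖ := norm_add_le _ _
    _ ≤ N * Real.sqrt (C * R ^ ((d : ℝ) - 1) * (ρ + r)) * Real.sqrt (gq a Y c) +
        C * N * R ^ e1 * (r ^ M)⁻¹ * ∑ z ∈ Y, ‖c z‖ := by
        refine add_le_add hnear ?_
        refine (norm_sum_le _ _).trans ?_
        rw [Finset.mul_sum]
        refine Finset.sum_le_sum fun z hz => ?_
        rw [norm_mul, mul_comm]
        exact mul_le_mul_of_nonneg_right (hfar z hz) (norm_nonneg _)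

end Pool.Agent.H82.KL.SHL2
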