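import Pool.Agent.H82.KL.Targets

set_option autoImplicit false

namespace Pool.Agent.H82.KL

lemma gram3 {d : ℕ} (a b c : EE d) (ha : ‖a‖ = 1) (hb : ‖b‖ = 1) (hc : ‖c‖ = 1) :
    0 ≤ 1 - inner ℝ a b ^ 2 - inner ℝ b c ^ 2 - inner ℝ a c ^ 2 +
      2 * inner ℝ a b * inner ℝ b c * inner ℝ a c := by
  have h1 := real_inner_mul_inner_self_le (a - inner ℝ a b • b) (c - inner ℝ b c • b)
  have haa : inner ℝ a a = (1 : ℝ) := by rw [real_inner_self_eq_norm_sq, ha]; norm_num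
  have hbb : inner ℝ b b = (1 : ℝ) := by rw [real_inner_self_eq_norm_sq, hb]; norm_num
  have hcc : inner ℝ c c = (1 : ℝ) := by rw [real_inner_self_eq_norm_sq, hc]; norm_num
  simp only [inner_sub_left, inner_sub_right, real_inner_smul_left, real_inner_smul_right,
    haa, hbb, hcc, real_inner_comm a b, real_inner_comm b c] at h1
  nlinarith [h1]

lemma sph_one {d : ℕ} (a b c : EE d) (α β : ℝ) (ha : ‖a‖ = 1) (hb : ‖b‖ = 1) (hc : ‖c‖ = 1) :
    ‖a - c‖ / 2 * (|β| * ‖c - b‖) ≤ ‖α • (a - b) + β • (c - b)‖ := by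
  have haa : inner ℝ a a = (1 : ℝ) := by rw [real_inner_self_eq_norm_sq, ha]; norm_num
  have hbb : inner ℝ b b = (1 : ℝ) := by rw [real_inner_self_eq_norm_sq, hb]; norm_num
  have hcc : inner ℝ c c = (1 : ℝ) := by rw [real_inner_self_eq_norm_sq, hc]; norm_num
  have hac : ‖a - c‖ ≤ 2 := by
    have := norm_sub_le a c
    linarith
  by_cases hab : a = b
  · subst hab
    rw [sub_self, smul_zero, zero_add, norm_smul, Real.norm_eq_abs]
    have h0 : 0 ≤ |β| * ‖c - a‖ := by positivity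
    nlinarith
  have hg := gram3 a b c ha hb hc
  set x := inner ℝ a b with hx
  set y := inner ℝ b c with hy
  set z := inner ℝ a c with hz
  have hu : ‖a - b‖ ^ 2 = 2 - 2 * x := by
    rw [norm_sub_sq_real, ha, hb]
    ring
  have hv : ‖c - b‖ ^ 2 = 2 - 2 * y := by
    rw [norm_sub_sq_real, hc, hb, real_inner_comm]
    ring
  have hw : ‖a - c‖ ^ 2 = 2 - 2 * z := by
    rw [norm_sub_sq_real, ha, hc]
    ring
  have hu0 : 0 < 2 - 2 * x := by
    rw [← hu]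
    have : 0 < ‖a - b‖ := norm_pos_iff.mpr (sub_ne_zero.mpr hab)
    positivity
  have huv : inner ℝ (a - b) (c - b) = 1 + z - x - y := by
    simp only [inner_sub_left, inner_sub_right, hbb]
    rw [← hx, ← hy, ← hz]
    ring
  have hN : ‖α • (a - b) + β • (c - b)‖ ^ 2 = α ^ 2 * (2 - 2 * x) + 2 * (α * β * (1 + z - x - y)) +
      β ^ 2 * (2 - 2 * y) := by
    rw [norm_add_sq_real, norm_smul, norm_smul, real_inner_smul_left, real_inner_smul_right, huv,
      mul_pow, mul_pow, hu, hv, Real.norm_eq_abs, Real.norm_eq_abs, sq_abs, sq_abs]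
    ring
  have hL : (‖a - c‖ / 2 * (|β| * ‖c - b‖)) ^ 2 = (2 - 2 * z) / 4 * (β ^ 2 * (2 - 2 * y)) := by
    rw [mul_pow, div_pow, mul_pow, hw, hv, sq_abs]
    norm_num
  refine le_of_sq_le_sq ?_ (norm_nonneg _)
  rw [hN, hL]
  -- multiply by `2 - 2x`
  have key : (2 - 2 * x) * ((2 - 2 * z) / 4 * (β ^ 2 * (2 - 2 * y))) ≤
      (2 - 2 * x) * (α ^ 2 * (2 - 2 * x) + 2 * (α * β * (1 + z - x - y)) +
      β ^ 2 * (2 - 2 * y)) := by
    have h1 : (2 - 2 * x) * (α ^ 2 * (2 - 2 * x) + 2 * (α * β * (1 + z - x - y)) +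
      β ^ 2 * (2 - 2 * y)) - (2 - 2 * x) * ((2 - 2 * z) / 4 * (β ^ 2 * (2 - 2 * y))) =
      (α * (2 - 2 * x) + β * (1 + z - x - y)) ^ 2 +
      β ^ 2 * (1 - x ^ 2 - y ^ 2 - z ^ 2 + 2 * x * y * z) := by ring
    have h2 : 0 ≤ (α * (2 - 2 * x) + β * (1 + z - x - y)) ^ 2 := sq_nonneg _
    have h3 : 0 ≤ β ^ 2 * (1 - x ^ 2 - y ^ 2 - z ^ 2 + 2 * x * y * z) :=
      mul_nonneg (sq_nonneg _) hg
    linarith
  exact le_of_mul_le_mul_left key hu0

theorem sph_main : T_SPH := by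
  intro d a b c α β ha hb hc
  refine ⟨sph_one a b c α β ha hb hc, ?_⟩
  have h := sph_one c b a β α hc hb ha
  rw [norm_sub_rev c a, add_comm] at h
  exact h

end Pool.Agent.H82.KL
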