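import Pool.Agent.H82.KL.ABS
import Pool.Agent.H82.KL.SPH
import Pool.Agent.H82.KL.SHL2
import Pool.Agent.H1.KL.K2
import Pool.Agent.H3.KL.PKF
import Pool.Agent.H19.KL.BUMP
import Pool.Agent.H19.KL.PACK
import Pool.Agent.H19.KL.PSUM
import Pool.Agent.H19.KL.SHV
import Pool.Agent.H22.KL.DUAL
import Pool.Agent.H22.KL.GRAM
import Pool.Agent.H22.KL.K1
import Pool.Agent.H22.KL.PKN
import Pool.Agent.H22.KL.PKZ
import Pool.Agent.H22.KL.SUPB
import Pool.Agent.H22.KL.TAIL
import Pool.Agent.H27.KL.BES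
import Pool.Agent.H27.KL.FIN
import Pool.Agent.H27.KL.ONE
import Pool.Agent.H27.KL.PCB
import Pool.Agent.H63.KL.K3
import Pool.Agent.H63.KL.LCC
import Pool.Agent.H63.KL.ROW

/-!
Multilinear local smoothing: the chain of the modules.
-/

set_option autoImplicit false

namespace Pool.Agent.H82.KL

theorem c_pack : T_PACK := Pool.Agent.H19.KL.pack_main
theorem c_psum : T_PSUM := Pool.Agent.H19.KL.psum_main c_pack
theorem c_shv : T_SHV := Pool.Agent.H19.KL.shv_main
theorem c_pkf : T_PKF := Pool.Agent.H3.KL.pkf_main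
theorem c_pkz : T_PKZ := Pool.Agent.H22.KL.pkz_main c_pkf
theorem c_pkn : T_PKN := Pool.Agent.H22.KL.pkn_main c_pkz
theorem c_k1 : T_K1 := Pool.Agent.H22.KL.k1_main c_pkn
theorem c_k2 : T_K2 := Pool.Agent.H1.KL.k2_main
theorem c_k3 : T_K3 := Pool.Agent.H63.KL.k3_main c_k1 c_k2
theorem c_tail : T_TAIL := Pool.Agent.H22.KL.tail_main c_k1
theorem c_gram : T_GRAM := Pool.Agent.H22.KL.gram_main
theorem c_dual : T_DUAL2 := Pool.Agent.H22.KL.dual_main c_gram
theorem c_supb : T_SUPB := Pool.Agent.H22.KL.supb_main c_tail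
theorem c_shl : T_SHL := SHL2.shl_main c_dual c_tail c_shv
theorem c_lcc : T_LCC := Pool.Agent.H63.KL.lcc_main sph_main c_k2 c_shl c_pack c_psum
theorem c_row : T_ROW := Pool.Agent.H63.KL.row_main c_k1 c_k3 c_pack
theorem c_bump : T_BUMP := Pool.Agent.H19.KL.bump_main
theorem c_one (h : T_CORE) : T_ONE := one_main h
theorem c_pcb (h : T_CORE) : T_PCB := pcb_main (c_one h) bes_main c_bump
theorem c_fin (h : T_CORE) : T_FIN := fin_main (c_pcb h)

end Pool.Agent.H82.KL
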