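import Pool.Agent.H82.KL.Chain
import Pool.Agent.H69.KL.L2P
import Pool.Agent.H77.KL.LOC
import Pool.Agent.H86.KL.GLB
import Pool.Agent.H84.KL.MLR

/-!
Multilinear local smoothing: the chain of the modules, second part.
-/

set_option autoImplicit false

namespace Pool.Agent.H82.KL

theorem c_l2p : T_L2P := Pool.Agent.H69.KL.l2p_main c_dual c_gram c_pack c_k1 c_psum
theorem c_mlr : T_MLR := Pool.Agent.H84.KL.mlr_main
theorem c_loc : T_LOC :=
  Pool.Agent.H77.KL.loc_main abs_main c_mlr c_shl c_lcc c_row c_gram c_supb c_dual c_pack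
theorem c_glb : T_GLB := Pool.Agent.H86.KL.glb_main c_loc c_supb c_tail

end Pool.Agent.H82.KL
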