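import Pool.Agent.H84.BR.ClaimDefs

/-!
Definitions for the statement of `MP_ee74d2_an.BroadPart`.
-/

set_option autoImplicit false

namespace Pool.Agent.H82.KL.CD

open MeasureTheory Set FourierTransform
open scoped ENNReal NNReal

/-- `ℝ^d` -/
abbrev EE (d : ℕ) := EuclideanSpace ℝ (Fin d)

/-- the part with the symbol `a(2^{-m} ξ)` of the half wave with sign `s = ±1` of the solution `u` of
the wave equation with `u(0) = u₀`, `u_t(0) = u₁` (Fourier transforms with the kernels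
`e^{∓2πi x·ξ}`): the Fourier transform of `u(·,t)` is the sum over `s = ±1` of
`e^{2πi s t|ξ|} (û₀(ξ)/2 + s û₁(ξ)/(4πi|ξ|))` -/
noncomputable def piece {d : ℕ} (a : EE d → ℂ) (s : ℝ) (m : ℕ) (u₀ u₁ : EE d → ℂ) (t : ℝ)
    (x : EE d) : ℂ :=
  𝓕⁻ (fun ξ : EE d => Complex.exp (((2 * Real.pi * (s * t * ‖ξ‖) : ℝ) : ℂ) * Complex.I) *
    a (((2 : ℝ) ^ m)⁻¹ • ξ) *
    (𝓕 u₀ ξ / 2 + (s : ℂ) * 𝓕 u₁ ξ / (4 * (Real.pi : ℂ) * Complex.I * (‖ξ‖ : ℂ)))) x

/-- transversality of `k` sets `Γ_j` of frequencies with signs `s_j`: whenever `ξ_j ∈ Γ_j` for all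
`j`, the light rays `(s_j ξ_j/|ξ_j|, 1)` are linearly independent vectors of `ℝ^d × ℝ` -/
def Transversal {d k : ℕ} (Γ : Fin k → Set (EE d)) (s : Fin k → ℝ) : Prop :=
  ∀ ξ : Fin k → EE d, (∀ j, ξ j ∈ Γ j) →
    LinearIndependent ℝ (fun j => ((s j • ‖ξ j‖⁻¹ • ξ j, 1) : EE d × ℝ))

/-- the `k`-broad part of the solution at the frequencies `2^m`, for the symbols `a_i` with the signs
`s_i`, `i < n`: the maximum over all `k`-tuples `c` of indices with transversal supports of the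
minimum over `j` of the modulus of the part number `c j` -/
noncomputable def broad {d n : ℕ} (k : ℕ) (a : Fin n → EE d → ℂ) (s : Fin n → ℝ) (m : ℕ)
    (u₀ u₁ : EE d → ℂ) (t : ℝ) (x : EE d) : ℝ≥0∞ :=
  ⨆ (c : Fin k → Fin n) (_ : Transversal (fun j => tsupport (a (c j))) (fun j => s (c j))),
    ⨅ j, ‖piece (a (c j)) (s (c j)) m u₀ u₁ t x‖ₑ

end Pool.Agent.H82.KL.CD
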