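import Mathlib

/-!
Multilinear local smoothing: definitions. `e x = exp(2πix)`, space-time is `ℝ^d × ℝ` (sup metric).
-/

set_option autoImplicit false

namespace Pool.Agent.H82.KL

open MeasureTheory Set FourierTransform
open scoped ENNReal NNReal SchwartzMap

/-- `ℝ^d` -/
abbrev EE (d : ℕ) := EuclideanSpace ℝ (Fin d)

/-- `e x = exp(2πix)` -/
noncomputable def e (x : ℝ) : ℂ := Complex.exp (((2 * Real.pi * x : ℝ) : ℂ) * Complex.I)

/-- the wave with symbol `b`: `U b (x,t) = ∫ e(x·ξ + t|ξ|) b(ξ) dξ` -/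
noncomputable def U {d : ℕ} (b : EE d → ℂ) (z : EE d × ℝ) : ℂ :=
  ∫ ξ : EE d, e (inner ℝ z.1 ξ + z.2 * ‖ξ‖) * b ξ

/-- symbols: smooth, compactly supported, vanishing near the origin -/
def Sym {d : ℕ} (a : EE d → ℂ) : Prop :=
  ContDiff ℝ (⊤ : ℕ∞) a ∧ HasCompactSupport a ∧ (0 : EE d) ∉ tsupport a

/-- the symbol `|a|²` -/
noncomputable def sq {d : ℕ} (a : EE d → ℂ) (ξ : EE d) : ℂ := ((‖a ξ‖ ^ 2 : ℝ) : ℂ)

/-- `W a f (x,t) = ∫ U a (x - y, t) f(y) dy = e^{it|D|} a(D) f (x)` -/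
noncomputable def W {d : ℕ} (a f : EE d → ℂ) (z : EE d × ℝ) : ℂ :=
  ∫ y : EE d, U a (z.1 - y, z.2) * f y

/-- bounded measurable functions -/
def BM {d : ℕ} (f : EE d → ℂ) : Prop := Measurable f ∧ ∃ A : ℝ, ∀ y, ‖f y‖ ≤ A

/-- transversal sets of frequencies: the light rays are linearly independent in space-time -/
def Transv {d k : ℕ} (Γ : Fin k → Set (EE d)) : Prop :=
  ∀ ξ : Fin k → EE d, (∀ j, ξ j ∈ Γ j) →
    LinearIndependent ℝ (fun j => ((‖ξ j‖⁻¹ • ξ j, 1) : EE d × ℝ))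

/-- `1`-separated finite sets of space-time points -/
def Sep {d : ℕ} (Y : Finset (EE d × ℝ)) : Prop :=
  ∀ z ∈ Y, ∀ z' ∈ Y, z ≠ z' → 1 ≤ dist z z'

/-- the unit vectors within `η` of a direction of the support of `a` -/
def Dir {d : ℕ} (η : ℝ) (a : EE d → ℂ) : Set (EE d) :=
  {ω | ‖ω‖ = 1 ∧ ∃ ξ ∈ tsupport a, ‖ω - ‖ξ‖⁻¹ • ξ‖ ≤ η}

/-- the exponent `P_k = 2 + 2(d-1)/((k-1)(d-3)+2)` -/
noncomputable def Pk (d k : ℕ) : ℝ :=
  2 + 2 * ((d : ℝ) - 1) / (((k : ℝ) - 1) * ((d : ℝ) - 3) + 2)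

/-- the quadratic form of the Gram matrix of the kernels with symbol `a` at the points of `Y`:
`∑ c_z conj(c_z') U(|a|²)(z - z')` -/
noncomputable def gq {d : ℕ} (a : EE d → ℂ) (Y : Finset (EE d × ℝ)) (c : EE d × ℝ → ℂ) : ℝ :=
  (∑ z ∈ Y, ∑ z' ∈ Y, c z * (starRingEnd ℂ) (c z') * U (sq a) (z - z')).re

/-- the points `z'` of `Y` at distance at most `ρ` of `z` in the `r`-neighbourhood of the light
cone of `z` in the directions `Dir η a` -/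
noncomputable def coneY {d : ℕ} (η : ℝ) (a : EE d → ℂ) (r ρ : ℝ) (Y : Finset (EE d × ℝ))
    (z : EE d × ℝ) : Finset (EE d × ℝ) := by
  classical
  exact Y.filter (fun z' => dist z z' ≤ ρ ∧
    ∃ ω ∈ Dir η a, ‖(z.1 - z'.1) + (z.2 - z'.2) • ω‖ ≤ r)

end Pool.Agent.H82.KL
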