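import Pool.Agent.H82.KL.Chain2
import Pool.Agent.H48.KL.LEVF

/-!
Multilinear local smoothing: the theorem.
-/

set_option autoImplicit false

namespace Pool.Agent.H82.KL

theorem c_core : T_CORE := Pool.Agent.H48.KL.lev_main c_glb c_supb c_l2p c_gram

theorem c_thmK : T_FIN := c_fin c_core

end Pool.Agent.H82.KL
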