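import Pool.Agent.H82.KL.Targets
import Pool.Agent.H84.BR.ClaimDefs

/-!
Multilinear local smoothing: targets of the final part.
-/

set_option autoImplicit false

namespace Pool.Agent.H82.KL

open MeasureTheory Set FourierTransform
open scoped ENNReal NNReal SchwartzMap

/-- the Fourier transform of the half wave `f^s`, `s = ±1`: the Fourier transform of the solution
`u(·,t)` is the sum over `s = ±1` of `e(s t|ξ|) hf s u₀ u₁ ξ` -/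
noncomputable def hf {d : ℕ} (s : ℝ) (u₀ u₁ : EE d → ℂ) (ξ : EE d) : ℂ :=
  𝓕 u₀ ξ / 2 + (s : ℂ) * 𝓕 u₁ ξ / (4 * (Real.pi : ℂ) * Complex.I * (‖ξ‖ : ℂ))

/-- the part of the half wave with the symbol `a(2^{-m} ξ)` -/
noncomputable def pc {d : ℕ} (a : EE d → ℂ) (s : ℝ) (m : ℕ) (u₀ u₁ : EE d → ℂ) (t : ℝ)
    (x : EE d) : ℂ :=
  𝓕⁻ (fun ξ : EE d => e (s * t * ‖ξ‖) * a (((2 : ℝ) ^ m)⁻¹ • ξ) * hf s u₀ u₁ ξ) x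

/-- transversality with signs -/
def TransvS {d k : ℕ} (Γ : Fin k → Set (EE d)) (s : Fin k → ℝ) : Prop :=
  ∀ ξ : Fin k → EE d, (∀ j, ξ j ∈ Γ j) →
    LinearIndependent ℝ (fun j => ((s j • ‖ξ j‖⁻¹ • ξ j, 1) : EE d × ℝ))

/-- the `k`-broad part of the frequencies `2^m` of the solution with respect to the family of
symbols `a` and signs `s` -/
noncomputable def Br {d n : ℕ} (k : ℕ) (a : Fin n → EE d → ℂ) (s : Fin n → ℝ) (m : ℕ)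
    (u₀ u₁ : EE d → ℂ) (t : ℝ) (x : EE d) : ℝ≥0∞ :=
  ⨆ (c : Fin k → Fin n) (_ : TransvS (fun j => tsupport (a (c j))) (fun j => s (c j))),
    ⨅ j, ‖pc (a (c j)) (s (c j)) m u₀ u₁ t x‖ₑ

/-- ONE: one frequency, Schwartz functions, with signs -/
def T_ONE : Prop := ∀ (d k : ℕ) (p ε : ℝ) (a : Fin k → EE d → ℂ) (s : Fin k → ℝ), 3 ≤ d → 2 ≤ k →
  Pk d k ≤ p → 0 < ε → (∀ j, Sym (a j)) → (∀ j, s j = 1 ∨ s j = -1) →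
  TransvS (fun j => tsupport (a j)) s → ∃ C : ℝ≥0, ∀ (lam : ℝ) (g : Fin k → 𝓢(EE d, ℂ)),
  1 ≤ lam → ∫⁻ t in Icc (1 : ℝ) 2, ∫⁻ x : EE d, (⨅ j,
    ‖𝓕⁻ (fun ξ : EE d => e (s j * t * ‖ξ‖) * a j (lam⁻¹ • ξ) * 𝓕 (g j : EE d → ℂ) ξ) x‖ₑ) ^ p ≤
    C * ENNReal.ofReal (lam ^ (((d : ℝ) - 1) * (p / 2 - 1) - 1 + ε)) * ∑ j, ∫⁻ y, ‖g j y‖ₑ ^ p

/-- BES: frequency localized functions and Bessel potentials -/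
def T_BES : Prop := ∀ (d : ℕ) (p r : ℝ) (a : EE d → ℂ), 1 ≤ p → Sym a → ∃ C : ℝ≥0,
  ∀ (lam : ℝ) (f : 𝓢(EE d, ℂ)), 1 ≤ lam → ∃ g : 𝓢(EE d, ℂ),
  (∀ ξ, 𝓕 (g : EE d → ℂ) ξ = a (lam⁻¹ • ξ) * 𝓕 (f : EE d → ℂ) ξ) ∧
  ∫⁻ y, ‖g y‖ₑ ^ p ≤ C * ENNReal.ofReal (lam ^ (-(p * r))) *
    ∫⁻ y, ‖Pool.Agent.H84.BR.CD.besS r f y‖ₑ ^ p

/-- BUMP: plateau symbols -/
def T_BUMP : Prop := ∀ (d : ℕ) (a : EE d → ℂ), Sym a → ∃ b : EE d → ℂ, Sym b ∧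
  ∀ ξ ∈ tsupport a, b ξ = 1

/-- PCB: one frequency, general data -/
def T_PCB : Prop := ∀ (d k : ℕ) (p σ : ℝ) (a : Fin k → EE d → ℂ) (s : Fin k → ℝ), 3 ≤ d → 2 ≤ k →
  Pk d k ≤ p → σ < 1 / p → (∀ j, Sym (a j)) → (∀ j, s j = 1 ∨ s j = -1) →
  TransvS (fun j => tsupport (a j)) s → ∃ (C : ℝ≥0) (η : ℝ), 0 < η ∧
  ∀ (m : ℕ) (u₀ u₁ : 𝓢(EE d, ℂ)),
  (∫⁻ t in Icc (1 : ℝ) 2, ∫⁻ x : EE d, (⨅ j, ‖pc (a j) (s j) m u₀ u₁ t x‖ₑ) ^ p) ^ (1 / p) ≤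
    C * ENNReal.ofReal ((2 : ℝ) ^ (-(η * m))) * Pool.Agent.H84.BR.CD.datN p σ u₀ u₁

/-- FIN: the theorem -/
def T_FIN : Prop := ∀ (d k n : ℕ) (p σ : ℝ) (a : Fin n → EE d → ℂ) (s : Fin n → ℝ), 3 ≤ d →
  2 ≤ k → Pk d k ≤ p → σ < 1 / p → (∀ i, Sym (a i)) → (∀ i, s i = 1 ∨ s i = -1) →
  ∃ C : ℝ≥0, ∀ u₀ u₁ : 𝓢(EE d, ℂ),
  ∑' m : ℕ, (∫⁻ t in Icc (1 : ℝ) 2, ∫⁻ x : EE d, Br k a s m u₀ u₁ t x ^ p) ^ (1 / p) ≤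
    C * Pool.Agent.H84.BR.CD.datN p σ u₀ u₁

end Pool.Agent.H82.KL
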