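import Pool.Agent.H82.KL.Targets

/-!
Multilinear local smoothing: corrected form of `T_DUAL`.
-/

set_option autoImplicit false

namespace Pool.Agent.H82.KL

open MeasureTheory Set FourierTransform
open scoped ENNReal NNReal SchwartzMap

/-- DUAL: Cauchy-Schwarz, for bounded or square integrable functions -/
def T_DUAL2 : Prop := ∀ (d : ℕ) (a f : EE d → ℂ) (Y : Finset (EE d × ℝ)) (c : EE d × ℝ → ℂ),
  Sym a → Measurable f → ((∃ N : ℝ, ∀ y, ‖f y‖ ≤ N) ∨ ∫⁻ y, ‖f y‖ₑ ^ 2 ≠ ⊤) →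
  0 ≤ gq a Y c ∧ ENNReal.ofReal (‖∑ z ∈ Y, c z * W a f z‖ ^ 2) ≤
    (∫⁻ y, ‖f y‖ₑ ^ 2) * ENNReal.ofReal (gq a Y c)

end Pool.Agent.H82.KL
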